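import Mathlib
import Pool.Prelude.Def_F_c31e40fa
import Pool.Agent.U256.GD4
import Pool.Agent.U256.Cusp
import Pool.Agent.U256.RR.NoAttr
import Pool.Agent.U256.RR.Count
import Pool.Agent.U256.RR.H3

set_option autoImplicit false

/-!
# Superattracting parameters stay away from parameters with small derivatives

Lower bounds for the distance of a parameter `c` without attracting cycle to the superattracting
parameters of period dividing `n`, and upper bounds for their number in small discs about `c`, in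
terms of the largest derivative of the iterates `f_c^k`, `k < n`, along the critical orbit. They are
lower bounds for the density of hyperbolicity, in the opposite direction of the known upper bounds
of the distance to the hyperbolic parameters by the derivatives.

At ALL REAL infinitely renormalizable parameters, of bounded or unbounded type, we prove the real a
priori bounds with an explicit constant: all the derivatives of `f_c^(p_k)` at the points
`f_c^(n p_k) (0)` are at most `4 d (1 + 8 d)`. So the derivatives grow subexponentially along the critical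
orbit, and polynomially for bounded type. It follows that the superattracting parameters of period `n`
have at least a distance `exp (-o(n))` from them (a distance `κ n ^ (-2 s - 2)` for bounded type), and the
proportion of the superattracting parameters of period `n` in a disc of radius `r` is smaller than every
power of `r`, up to `o(n)` of them.
-/

open Filter Topology Set Metric Complex N62a1eb23

namespace Pool.Agent.Results.MP_af9036_an.CentreRepulsion

/-- The map `z ↦ z ^ d + c`. -/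
def f (d : ℕ) (c : ℂ) : ℂ → ℂ := fun z => z ^ d + c

/-- `Φ ≥ 1` bounds the derivatives of the iterates `f_c^k`, `k < n`, at all points `f_c^m (0)` of the
critical orbit. -/
def DerivBound (d : ℕ) (c : ℂ) (n : ℕ) (Φ : ℝ) : Prop :=
  1 ≤ Φ ∧ ∀ m k : ℕ, k < n → ‖deriv ((f d c)^[k]) ((f d c)^[m] 0)‖ ≤ Φ

/-- The superattracting parameters `a` of period dividing `n ≥ 1` (these are the parameters `a` with
`f_a^n (0) = 0`, the centres of the hyperbolic components) at distance less than `r` from `c`. -/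
def centres (d n : ℕ) (c : ℂ) (r : ℝ) : Set ℂ := {a | ‖a - c‖ < r ∧ (f d a)^[n] 0 = 0}

/-- The derivatives of the iterates along the critical orbit are `O(n ^ s)`. -/
def PolynomialGrowth (d : ℕ) (c : ℂ) (s : ℝ) : Prop :=
  ∃ C : ℝ, ∀ m n : ℕ, ‖deriv ((f d c)^[n]) ((f d c)^[m] 0)‖ ≤ C * ((n : ℝ) + 1) ^ s

/-- `c` is parabolic: some points `f_c^(N k) (0)`, `k → ∞`, of the critical orbit converge to a
periodic point with multiplier one. -/
def Parabolic (d : ℕ) (c : ℂ) : Prop :=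
  ∃ (N : ℕ) (z₀ : ℂ), 1 ≤ N ∧ (f d c)^[N] z₀ = z₀ ∧ deriv ((f d c)^[N]) z₀ = 1 ∧
    Tendsto (fun k => (f d c)^[N * k] 0) atTop (𝓝 z₀)

/-- The map `x ↦ x ^ d + c` of the real line. -/
def fR (d : ℕ) (c : ℝ) : ℝ → ℝ := fun x => x ^ d + c

/-- The real map `f_c` is infinitely renormalizable with the periods `p 0`, `p 1`, …: each is a proper
divisor of the next one, and there are numbers `β 0 > β 1 > … > 0` such that for every `k` the map
`f_c^(p k)` maps the interval `[-β k, β k]` into itself, and any two of the `p k` intervals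
`f_c^i [-β k, β k]`, `i < p k`, have at most one point in common. (There are such parameters in the
even degrees `d` only.) -/
def RealPeriods (d : ℕ) (c : ℝ) (p : ℕ → ℕ) : Prop :=
  ∃ β : ℕ → ℝ, ∀ k : ℕ, 0 < p k ∧ p k ∣ p (k + 1) ∧ p k < p (k + 1) ∧
    0 < β k ∧ β (k + 1) < β k ∧
    MapsTo ((fR d c)^[p k]) (Icc (-β k) (β k)) (Icc (-β k) (β k)) ∧
    ∀ i j : ℕ, i < j → j < p k →
      (((fR d c)^[i] '' Icc (-β k) (β k)) ∩ ((fR d c)^[j] '' Icc (-β k) (β k))).Subsingleton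

/-- subexponential bounds of the derivatives -/
theorem derivBound_of_tower {d : ℕ} (hd : 2 ≤ d) {c : ℝ} {p : ℕ → ℕ} {b : ℕ → ℝ}
    (h : Pool.Agent.U256.RR.Tower d c p b) {a : ℝ} (ha : 0 < a) :
    ∀ᶠ n : ℕ in atTop, DerivBound d c n (Real.exp (a * n)) := by
  filter_upwards [h.deriv_bound hd ha] with n hn
  refine ⟨Real.one_le_exp (by positivity), fun m k hk => ?_⟩
  have h1 : (f d (c : ℂ))^[m] 0 = (((Pool.Agent.U256.RR.g d c)^[m] 0 : ℝ) : ℂ) := by
    have := Pool.Agent.U256.RR.iter_ofReal d c m 0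
    rwa [ofReal_zero] at this
  rw [h1]
  exact (Pool.Agent.U256.RR.norm_deriv d c k _).trans_le (hn m k hk)

theorem exp_big {K ε : ℝ} (hK : 0 < K) (hε : 0 < ε) :
    ∀ᶠ n : ℕ in atTop, K * (n : ℝ) ^ 2 ≤ Real.exp (ε * n) := by
  have h1 := (Real.tendsto_pow_mul_exp_neg_atTop_nhds_zero 2).comp
    ((tendsto_natCast_atTop_atTop (R := ℝ)).const_mul_atTop hε)
  filter_upwards [h1.eventually_lt_const (show 0 < ε ^ 2 / K by positivity)] with n hn
  have hn' : (ε * n) ^ 2 * Real.exp (-(ε * n)) < ε ^ 2 / K := hn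
  rw [Real.exp_neg, ← div_eq_mul_inv, div_lt_div_iff₀ (Real.exp_pos _) hK] at hn'
  have h2 : ε ^ 2 * (K * (n : ℝ) ^ 2) < ε ^ 2 * Real.exp (ε * n) := by nlinarith
  exact (lt_of_mul_lt_mul_left h2 (by positivity)).le

theorem bd_of {d : ℕ} {c : ℂ} {n : ℕ} {Φ : ℝ} (h : DerivBound d c n Φ) :
    Pool.Agent.U256.GD.Bd d c n Φ := by
  refine ⟨h.1, fun m k hk => ?_⟩
  rw [← Pool.Agent.U256.GD.norm_deriv_iter]
  exact h.2 m k hk

theorem growth_of {d : ℕ} {c : ℂ} {s : ℝ} (h : PolynomialGrowth d c s) :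
    ∃ C : ℝ, 1 ≤ C ∧ ∀ m n, m ≤ n → Pool.Agent.U256.GD.DD d c m n ≤
      C * (((n - m : ℕ) : ℝ) + 1) ^ s := by
  obtain ⟨C, hC⟩ := h
  refine ⟨max C 1, le_max_right _ _, fun m n hmn => ?_⟩
  have h1 : Pool.Agent.U256.GD.DD d c m (m + (n - m)) ≤ C * (((n - m : ℕ) : ℝ) + 1) ^ s := by
    rw [← Pool.Agent.U256.GD.norm_deriv_iter]
    exact hC m (n - m)
  rw [Nat.add_sub_cancel' hmn] at h1
  refine h1.trans ?_
  apply mul_le_mul_of_nonneg_right (le_max_left _ _) (by positivity)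

/-- `z ^ 2 + 1 / 4` has no attracting cycle. -/
theorem quarter_no_attr (m : ℕ) (z : ℂ) : ¬ IsAttractingCycle (f 2 (1 / 4)) m z := by
  rintro ⟨hm, hper, -, hlt⟩
  have hiter : ∀ k, ‖deriv ((f 2 (1 / 4))^[k]) z‖ =
      ∏ i ∈ Finset.range k, ‖2 * (f 2 (1 / 4))^[i] z‖ := by
    intro k
    have hd : ∀ w : ℂ, HasDerivAt (f 2 (1 / 4)) (2 * w) w := by
      intro w
      have h := (hasDerivAt_pow 2 w).add_const (1 / 4 : ℂ)
      have e : ((2 : ℕ) : ℂ) * w ^ (2 - 1) = 2 * w := by norm_num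
      rw [e] at h
      exact h
    induction k with
    | zero => simp
    | succ k ih =>
      rw [Finset.prod_range_succ, ← ih, Function.iterate_succ']
      have h := (hd ((f 2 (1 / 4))^[k] z)).comp z
        ((Differentiable.iterate (fun w => (hd w).differentiableAt) k) z).hasDerivAt
      rw [h.deriv, norm_mul, mul_comm]
  by_cases hbig : ∀ i, 1 / 2 < ‖(f 2 (1 / 4))^[i] z‖
  · rw [hiter] at hlt
    have h1 : (1 : ℝ) ≤ ∏ i ∈ Finset.range m, ‖2 * (f 2 (1 / 4))^[i] z‖ := by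
      apply Finset.prod_induction_nonempty _ (fun x : ℝ => 1 ≤ x)
      · intro a b ha hb
        nlinarith
      · exact Finset.nonempty_range_iff.2 (by omega)
      · intro i _
        rw [norm_mul]
        have h2 : ‖(2 : ℂ)‖ = 2 := by norm_num
        rw [h2]
        linarith [hbig i]
    linarith
  · push Not at hbig
    obtain ⟨i, hi⟩ := hbig
    -- all later points are in the closed disc and approach `1 / 2`
    have hin : ∀ k, ‖(f 2 (1 / 4))^[i + k] z‖ ≤ 1 / 2 := by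
      intro k
      induction k with
      | zero => exact hi
      | succ k ih =>
        rw [← add_assoc, Function.iterate_succ_apply']
        unfold f
        refine (norm_add_le _ _).trans ?_
        rw [norm_pow]
        have h1 : ‖(1 / 4 : ℂ)‖ = 1 / 4 := by norm_num
        rw [h1]
        have h2 : ‖(fun z : ℂ => z ^ 2 + 1 / 4)^[i + k] z‖ ≤ 1 / 2 := ih
        nlinarith [norm_nonneg ((fun z : ℂ => z ^ 2 + 1 / 4)^[i + k] z)]
    have hstep : ∀ w : ℂ, ‖w‖ ≤ 1 / 2 → w ≠ 1 / 2 → ‖f 2 (1 / 4) w - 1 / 2‖ < ‖w - 1 / 2‖ := by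
      intro w hw hne
      have e : f 2 (1 / 4) w - 1 / 2 = (w - 1 / 2) * (w + 1 / 2) := by
        unfold f
        ring
      have h1 : 0 < ‖w - 1 / 2‖ := norm_pos_iff.2 (sub_ne_zero.2 hne)
      have h2 : ‖w + 1 / 2‖ < 1 := by
        have h3 : ‖w + 1 / 2‖ ^ 2 = ‖w‖ ^ 2 + w.re + 1 / 4 := by
          rw [← Complex.normSq_eq_norm_sq, ← Complex.normSq_eq_norm_sq, Complex.normSq_apply,
            Complex.normSq_apply]
          simp
          ring
        have h4 : w.re ≤ ‖w‖ := (le_abs_self _).trans (Complex.abs_re_le_norm w)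
        have h5 : w.re < 1 / 2 ∨ w.re = 1 / 2 := lt_or_eq_of_le (h4.trans hw)
        rcases h5 with h5 | h5
        · have h6 : ‖w + 1 / 2‖ ^ 2 < 1 := by
            rw [h3]; nlinarith [norm_nonneg w]
          nlinarith [norm_nonneg (w + 1 / 2)]
        · exfalso
          apply hne
          have h6 : ‖w‖ ^ 2 = w.re ^ 2 + w.im ^ 2 := by
            rw [← Complex.normSq_eq_norm_sq, Complex.normSq_apply]; ring
          have h7 : w.im ^ 2 ≤ 0 := by nlinarith [norm_nonneg w]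
          have h8 : w.im = 0 := by nlinarith [sq_nonneg w.im]
          apply Complex.ext
          · rw [h5]; norm_num
          · rw [h8]; norm_num
      rw [e, norm_mul]
      nlinarith
    obtain ⟨w, hw⟩ : ∃ w, w = (f 2 (1 / 4))^[i] z := ⟨_, rfl⟩
    have hperw : (f 2 (1 / 4))^[m] w = w := by
      rw [hw, ← Function.iterate_add_apply, add_comm, Function.iterate_add_apply, hper.eq]
    have hinw : ∀ k, ‖(f 2 (1 / 4))^[k] w‖ ≤ 1 / 2 := by
      intro k
      have := hin k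
      rwa [add_comm, Function.iterate_add_apply, ← hw] at this
    by_cases hw2 : w = 1 / 2
    · -- the cycle is the fixed point `1 / 2`
      have hfix : f 2 (1 / 4) (1 / 2) = 1 / 2 := by unfold f; norm_num
      have hz : z = 1 / 2 := by
        -- `z = f^(m j) z` and for large `j` this is `1 / 2`
        have h1 : ∀ k, (f 2 (1 / 4))^[k] w = 1 / 2 := by
          intro k
          rw [hw2]
          exact Function.iterate_fixed hfix k
        have h2 : (f 2 (1 / 4))^[m * (i + 1)] z = z := by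
          rw [Function.iterate_mul]
          exact Function.iterate_fixed hper.eq _
        have h3 : m * (i + 1) = (m * (i + 1) - i) + i := by
          have : i ≤ m * (i + 1) := by nlinarith
          omega
        rw [h3, Function.iterate_add_apply, ← hw, h1] at h2
        exact h2.symm
      rw [hiter] at hlt
      have h1 : ∏ i ∈ Finset.range m, ‖2 * (f 2 (1 / 4))^[i] z‖ = 1 := by
        apply Finset.prod_eq_one
        intro i _
        rw [hz, Function.iterate_fixed hfix]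
        norm_num
      linarith
    · have hdec : ∀ k, ‖(f 2 (1 / 4))^[k + 1] w - 1 / 2‖ < ‖w - 1 / 2‖ := by
        intro k
        induction k with
        | zero => exact hstep w (hinw 0) hw2
        | succ k ih =>
          rw [Function.iterate_succ_apply']
          by_cases h1 : (f 2 (1 / 4))^[k + 1] w = 1 / 2
          · rw [h1]
            have hfix : f 2 (1 / 4) (1 / 2) = 1 / 2 := by unfold f; norm_num
            rw [hfix, sub_self, norm_zero]
            exact norm_pos_iff.2 (sub_ne_zero.2 hw2)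
          · exact (hstep _ (hinw _) h1).trans ih
      have h1 := hdec (m - 1)
      rw [Nat.sub_add_cancel hm, hperw] at h1
      exact lt_irrefl _ h1

theorem quarter_half (k : ℕ) : ‖Pool.Agent.H712R2.P 2 k (1 / 4 : ℂ)‖ ≤ 1 / 2 := by
  induction k with
  | zero => rw [Pool.Agent.H712R2.P_zero, norm_zero]; norm_num
  | succ k ih =>
    rw [Pool.Agent.H712R2.P_succ]
    refine (norm_add_le _ _).trans ?_
    rw [norm_pow]
    have h1 : ‖(1 / 4 : ℂ)‖ = 1 / 4 := by norm_num
    rw [h1]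
    nlinarith [norm_nonneg (Pool.Agent.H712R2.P 2 k (1 / 4 : ℂ))]

theorem quarter_mem : (1 / 4 : ℂ) ∈ multibrotSet 2 := by
  rw [Pool.Agent.H712R2.mem_multibrot_iff le_rfl]
  intro k
  linarith [quarter_half k]

/-- the derivatives along the critical orbit of `z ^ 2 + 1 / 4` are at most one -/
theorem quarter_bound (n : ℕ) : DerivBound 2 (1 / 4) n 1 := by
  refine ⟨le_rfl, fun m k _ => ?_⟩
  have h := Pool.Agent.U256.GD.norm_deriv_iter 2 (1 / 4) m k
  refine (le_of_eq h).trans ?_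
  unfold Pool.Agent.U256.GD.DD
  apply Finset.prod_le_one (fun _ _ => norm_nonneg _)
  intro i _
  have h1 := quarter_half i
  rw [norm_mul, norm_pow]
  norm_num
  linarith

/-- **Repulsion of the superattracting parameters.** -/
theorem result (d : ℕ) (hd : 2 ≤ d) :
    -- (1) universal inequalities, with a constant that depends on the degree only
    (∃ K : ℝ, 0 < K ∧ ∀ c ∈ multibrotSet d, (∀ m z, ¬ IsAttractingCycle (f d c) m z) →
      ∀ n : ℕ, 1 ≤ n → ∀ Φ : ℝ, DerivBound d c n Φ →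
        1 / (K * (n * Φ)) ≤ ‖(f d c)^[n] 0‖ ∧
        (∀ a : ℂ, (f d a)^[n] 0 = 0 → 1 / (K * (n * Φ) ^ 2) ≤ ‖a - c‖) ∧
        ∀ N : ℕ, 1 ≤ N → ∀ Ψ : ℝ, DerivBound d c N Ψ → ∀ r : ℝ, 0 < r →
          K * (N * Ψ) ^ 2 * r ≤ 1 → (centres d n c r).Finite ∧
            ((centres d n c r).ncard : ℝ) ≤
              K * ((d : ℝ) ^ n / (d : ℝ) ^ N + Real.log (n * Φ) + 1)) ∧
    -- (2) polynomial growth of the derivatives
    (∀ c ∈ multibrotSet d, (∀ m z, ¬ IsAttractingCycle (f d c) m z) →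
      ∀ s : ℝ, 0 ≤ s → PolynomialGrowth d c s →
        ∃ κ A K : ℝ, 0 < κ ∧ 0 < A ∧ 0 < K ∧
          (∀ n : ℕ, 1 ≤ n → κ / (n : ℝ) ^ (s + 1) ≤ ‖(f d c)^[n] 0‖ ∧
            ∀ a : ℂ, (f d a)^[n] 0 = 0 → κ / (n : ℝ) ^ (2 * s + 2) ≤ ‖a - c‖) ∧
          ∀ᶠ r : ℝ in 𝓝[>] 0, ∀ n : ℕ, 1 ≤ n → ((centres d n c r).ncard : ℝ) ≤
            (d : ℝ) ^ n * Real.exp (-(A * r ^ (-(1 / (2 * s + 2))))) + K * (1 + Real.log n)) ∧
    -- (3) the parabolic parameters have bounded derivatives, and the exponent `2` is sharp at `1/4`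
    (∀ c ∈ multibrotSet d, Parabolic d c → PolynomialGrowth d c 0) ∧
    (∃ κ R : ℝ, 0 < κ ∧ 0 < R ∧ ∀ n : ℕ, 1 ≤ n →
      (∀ a : ℂ, (f 2 a)^[n] 0 = 0 → κ / (n : ℝ) ^ 2 ≤ ‖a - 1 / 4‖) ∧
      ∃ a : ℂ, (f 2 a)^[n] 0 = 0 ∧ ‖a - 1 / 4‖ ≤ R / (n : ℝ) ^ 2) ∧
    -- (4) all real infinitely renormalizable parameters
    ∀ (c : ℝ) (p : ℕ → ℕ), RealPeriods d c p → (c : ℂ) ∈ multibrotSet d ∧
      (∀ m z, ¬ IsAttractingCycle (f d c) m z) ∧
      (∀ k n : ℕ, ‖deriv ((f d c)^[p k]) ((f d c)^[n * p k] 0)‖ ≤ 4 * d * (1 + 8 * d)) ∧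
      (∀ B : ℕ, (∀ k, p (k + 1) ≤ B * p k) → ∃ s : ℝ, 0 ≤ s ∧ PolynomialGrowth d c s) ∧
      (∀ ε : ℝ, 0 < ε → ∀ᶠ n : ℕ in atTop, DerivBound d c n (Real.exp (ε * n)) ∧
        Real.exp (-(ε * n)) ≤ ‖(f d c)^[n] 0‖ ∧
        ∀ a : ℂ, (f d a)^[n] 0 = 0 → Real.exp (-(ε * n)) ≤ ‖a - c‖) ∧
      ∀ κ ε : ℝ, 0 < κ → 0 < ε → ∃ K : ℝ, 0 < K ∧ ∀ᶠ r : ℝ in 𝓝[>] 0, ∀ n : ℕ, 1 ≤ n →
        ((centres d n c r).ncard : ℝ) ≤ (d : ℝ) ^ n * r ^ κ + ε * n + K := by
  have hlog2 : 0 < Real.log 2 := Real.log_pos (by norm_num)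
  have hlog2' : 1 / 2 < Real.log 2 := by linarith [Real.log_two_gt_d9]
  -- the key inequalities, in all degrees
  have keyR : ∀ d : ℕ, 2 ≤ d → ∀ c ∈ multibrotSet d, (∀ m z, ¬ IsAttractingCycle (f d c) m z) →
      ∀ n : ℕ, 1 ≤ n → ∀ Φ : ℝ, DerivBound d c n Φ →
        1 ≤ 8 ^ (d + 1) * (n * Φ) * ‖(f d c)^[n] 0‖ ∧
        ∀ a : ℂ, (f d a)^[n] 0 = 0 → 1 ≤ 8 ^ (d + 2) * (n * Φ) ^ 2 * ‖a - c‖ := by
    intro d hd c hc hno n hn Φ hΦ
    exact ⟨Pool.Agent.U256.GD.no_return hd hc hn (bd_of hΦ) (fun z => hno n z),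
      fun a ha => Pool.Agent.U256.GD.repulsion hd hc hn (bd_of hΦ) (fun z => hno n z) ha⟩
  have key1 : ∃ K : ℝ, 0 < K ∧ ∀ c ∈ multibrotSet d, (∀ m z, ¬ IsAttractingCycle (f d c) m z) →
      ∀ n : ℕ, 1 ≤ n → ∀ Φ : ℝ, DerivBound d c n Φ →
        1 / (K * (n * Φ)) ≤ ‖(f d c)^[n] 0‖ ∧
        (∀ a : ℂ, (f d a)^[n] 0 = 0 → 1 / (K * (n * Φ) ^ 2) ≤ ‖a - c‖) ∧
        ∀ N : ℕ, 1 ≤ N → ∀ Ψ : ℝ, DerivBound d c N Ψ → ∀ r : ℝ, 0 < r →
          K * (N * Ψ) ^ 2 * r ≤ 1 → (centres d n c r).Finite ∧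
            ((centres d n c r).ncard : ℝ) ≤
              K * ((d : ℝ) ^ n / (d : ℝ) ^ N + Real.log (n * Φ) + 1) := by
    obtain ⟨L, hL⟩ : ∃ L, L = Real.log (8 ^ (d + 1)) := ⟨_, rfl⟩
    have hL0 : 0 ≤ L := by
      rw [hL]; exact Real.log_nonneg (one_le_pow₀ (by norm_num))
    obtain ⟨K, hK⟩ : ∃ K : ℝ, K = 8 ^ (d + 2) + 12 * 3 ^ d + 6 + 2 * (1 + L) := ⟨_, rfl⟩
    have e1 : (8 : ℝ) ^ (d + 1) ≤ 8 ^ (d + 2) := pow_le_pow_right₀ (by norm_num) (by omega)
    have e0 : (0 : ℝ) < 8 ^ (d + 1) := by positivity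
    have e3 : (0 : ℝ) < 12 * 3 ^ d := by positivity
    have hK0 : 0 < K := by rw [hK]; linarith
    have hK1 : (8 : ℝ) ^ (d + 1) ≤ K := by rw [hK]; linarith
    have hK2 : (8 : ℝ) ^ (d + 2) ≤ K := by rw [hK]; linarith
    have hK3 : (12 : ℝ) * 3 ^ d ≤ K := by rw [hK]; linarith
    have hK4 : 6 ≤ K := by rw [hK]; linarith
    have hK5 : 2 * (1 + L) ≤ K := by rw [hK]; linarith
    refine ⟨K, hK0, ?_⟩
    intro c hc hno n hn Φ hΦ
    obtain ⟨h1, h2⟩ := keyR d hd c hc hno n hn Φ hΦ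
    have hn1 : (1 : ℝ) ≤ n := by exact_mod_cast hn
    have hΦ1 := hΦ.1
    have hnΦ : 1 ≤ n * Φ := by nlinarith
    refine ⟨?_, ?_, ?_⟩
    · rw [div_le_iff₀ (by positivity)]
      calc (1 : ℝ) ≤ 8 ^ (d + 1) * (n * Φ) * ‖(f d c)^[n] 0‖ := h1
        _ ≤ K * (n * Φ) * ‖(f d c)^[n] 0‖ := by gcongr
        _ = _ := by ring
    · intro a ha
      rw [div_le_iff₀ (by positivity)]
      calc (1 : ℝ) ≤ 8 ^ (d + 2) * (n * Φ) ^ 2 * ‖a - c‖ := h2 a ha
        _ ≤ K * (n * Φ) ^ 2 * ‖a - c‖ := by gcongr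
        _ = _ := by ring
    · intro N hN Ψ hΨ r hr hrs
      have hfin : (centres d n c r).Finite := by
        obtain ⟨k, rfl⟩ : ∃ k, n = k + 1 := ⟨n - 1, by omega⟩
        exact Pool.Agent.U256.GD.Cn_finite hd k c r
      refine ⟨hfin, ?_⟩
      have hrs' : 12 * 3 ^ d * r * (N * Ψ) ^ 2 ≤ 1 := by
        calc 12 * 3 ^ d * r * (N * Ψ) ^ 2 = (12 * 3 ^ d) * (N * Ψ) ^ 2 * r := by ring
          _ ≤ K * (N * Ψ) ^ 2 * r := by gcongr
          _ ≤ 1 := hrs
      have h3 := Pool.Agent.U256.GD.count_phi hd hc hN (bd_of hΨ) hn (bd_of hΦ)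
        (fun z => hno n z) hr hrs'
      have h3' : ((centres d n c r).ncard : ℝ) * Real.log 2 ≤
          Real.log 2 + 3 * (d : ℝ) ^ n / (d : ℝ) ^ N + Real.log (8 ^ (d + 1) * (n * Φ)) := h3
      rw [Real.log_mul (by positivity) (by positivity), ← hL] at h3'
      obtain ⟨Q, hQ⟩ : ∃ Q, Q = (d : ℝ) ^ n / (d : ℝ) ^ N := ⟨_, rfl⟩
      have hQ0 : 0 ≤ Q := by rw [hQ]; positivity
      have h4 : 3 * (d : ℝ) ^ n / (d : ℝ) ^ N = 3 * Q := by rw [hQ]; ring
      rw [h4] at h3'
      rw [← hQ]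
      have hlog : 0 ≤ Real.log (n * Φ) := Real.log_nonneg hnΦ
      have h5 : ((centres d n c r).ncard : ℝ) * Real.log 2 ≤
          K * (Q + Real.log (n * Φ) + 1) * Real.log 2 := by
        have a1 : 3 * Q ≤ K * Q * Real.log 2 := by
          have : 3 * Q ≤ K * Q * (1 / 2) := by nlinarith
          refine this.trans ?_
          apply mul_le_mul_of_nonneg_left hlog2'.le (by positivity)
        have a2 : Real.log (n * Φ) ≤ K * Real.log (n * Φ) * Real.log 2 := by
          have : Real.log (n * Φ) ≤ K * Real.log (n * Φ) * (1 / 2) := by nlinarith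
          refine this.trans ?_
          apply mul_le_mul_of_nonneg_left hlog2'.le (by positivity)
        have a3 : Real.log 2 + L ≤ K * Real.log 2 := by
          have b1 : L ≤ 2 * L * Real.log 2 := by nlinarith
          nlinarith
        nlinarith
      exact le_of_mul_le_mul_right h5 hlog2
  refine ⟨key1, ?_, ?_, ?_, ?_⟩
  · -- (2)
    intro c hc hno s hs hg
    obtain ⟨C, hC1, hD⟩ := growth_of hg
    obtain ⟨A, K, hA, hK, hcount⟩ := Pool.Agent.U256.GD.count_poly hd hc hC1 hs hD hno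
    obtain ⟨κ, hκ⟩ : ∃ κ : ℝ, κ = 1 / (8 ^ (d + 2) * C ^ 2) := ⟨_, rfl⟩
    have hκ0 : 0 < κ := by rw [hκ]; positivity
    refine ⟨κ, A, K, hκ0, hA, hK, ?_, hcount⟩
    intro n hn
    have hn1 : (1 : ℝ) ≤ n := by exact_mod_cast hn
    have hn0 : (0 : ℝ) < n := by linarith
    have hB := Pool.Agent.U256.GD.Bd.of_poly hC1 hs hD hn
    have h1 := Pool.Agent.U256.GD.no_return hd hc hn hB (fun z => hno n z)
    have e1 : (n : ℝ) * (C * (n : ℝ) ^ s) = C * (n : ℝ) ^ (s + 1) := by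
      rw [Real.rpow_add hn0, Real.rpow_one]; ring
    have hp0 : 0 < (n : ℝ) ^ (s + 1) := by positivity
    constructor
    · rw [e1] at h1
      rw [hκ, div_div, div_le_iff₀ (by positivity)]
      have h2 : ‖(f d c)^[n] 0‖ = ‖Pool.Agent.H712R2.P d n c‖ := rfl
      rw [h2]
      calc (1 : ℝ) ≤ 8 ^ (d + 1) * (C * (n : ℝ) ^ (s + 1)) * ‖Pool.Agent.H712R2.P d n c‖ := h1
        _ ≤ 8 ^ (d + 2) * (C ^ 2 * (n : ℝ) ^ (s + 1)) * ‖Pool.Agent.H712R2.P d n c‖ := by
            gcongr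
            · norm_num
            · omega
            · nlinarith
        _ = _ := by ring
    · intro a ha
      have h2 := Pool.Agent.U256.GD.repulsion hd hc hn hB (fun z => hno n z) (a := a) ha
      rw [e1] at h2
      have e2 : (n : ℝ) ^ (2 * s + 2) = ((n : ℝ) ^ (s + 1)) ^ 2 := by
        rw [← Real.rpow_natCast, ← Real.rpow_mul hn0.le]
        congr 1
        push_cast
        ring
      rw [hκ, e2, div_div, div_le_iff₀ (by positivity)]
      refine h2.trans (le_of_eq (by ring))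
  · -- (3)
    intro c hc hp
    obtain ⟨N, z₀, hN, h1, h2, h3⟩ := hp
    obtain ⟨C, hC⟩ := Pool.Agent.U256.GD.parabolic_DD hd hc hN h1 h2 h3
    refine ⟨C, fun m n => ?_⟩
    rw [Real.rpow_zero, mul_one]
    have h4 := hC m (m + n) (by omega)
    rw [← Pool.Agent.U256.GD.norm_deriv_iter] at h4
    exact h4
  · -- the cusp
    obtain ⟨R, hR, h⟩ := Pool.Agent.U256.Cusp.near_cusp
    refine ⟨1 / 8 ^ 4, R, by positivity, hR, fun n hn => ⟨fun a ha => ?_, h n hn⟩⟩
    have hn0 : (0 : ℝ) < n := by exact_mod_cast hn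
    have h1 := (keyR 2 le_rfl (1 / 4) quarter_mem quarter_no_attr n hn 1 (quarter_bound n)).2 a ha
    rw [div_div, div_le_iff₀ (by positivity)]
    refine h1.trans (le_of_eq ?_)
    norm_num
    ring
  · -- (4)
    rintro c p ⟨b, h⟩
    have hT : Pool.Agent.U256.RR.Tower d c p b := h
    have hno : ∀ m z, ¬ IsAttractingCycle (f d (c : ℂ)) m z := fun m z => hT.no_attr hd m z
    refine ⟨hT.mem, hno, fun k n => hT.complex_bounds hd k n, fun B hB => ?_, fun ε hε => ?_,
      fun κ ε hκ hε => ?_⟩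
    · obtain ⟨s, hs, C, hC⟩ := hT.poly' hd hB
      exact ⟨s, hs, C, hC⟩
    · filter_upwards [derivBound_of_tower hd hT hε,
        derivBound_of_tower hd hT (show 0 < ε / 4 by positivity),
        exp_big (show (0 : ℝ) < 8 ^ (d + 2) by positivity) (half_pos hε),
        eventually_ge_atTop 1] with n h0 h1 h2 h3
      obtain ⟨k1, k2⟩ := keyR d hd c hT.mem hno n h3 _ h1
      have hn1 : (1 : ℝ) ≤ n := by exact_mod_cast h3
      have e1 : Real.exp (ε / 4 * n) ^ 2 = Real.exp (ε / 2 * n) := by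
        rw [← Real.exp_nat_mul]
        congr 1
        push_cast
        ring
      have e2 : Real.exp (ε / 2 * n) * Real.exp (ε / 2 * n) = Real.exp (ε * n) := by
        rw [← Real.exp_add]
        congr 1
        ring
      have e3 : 1 ≤ Real.exp (ε / 4 * n) := Real.one_le_exp (by positivity)
      refine ⟨h0, ?_, fun a ha => ?_⟩
      · rw [Real.exp_neg, inv_le_iff_one_le_mul₀ (Real.exp_pos _)]
        refine k1.trans ?_
        rw [mul_comm]
        apply mul_le_mul_of_nonneg_left _ (norm_nonneg _)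
        calc (8 : ℝ) ^ (d + 1) * (n * Real.exp (ε / 4 * n)) =
            8 ^ (d + 1) * (n : ℝ) * Real.exp (ε / 4 * n) := by ring
          _ ≤ 8 ^ (d + 2) * (n : ℝ) ^ 2 * Real.exp (ε / 4 * n) ^ 2 := by
              gcongr
              · norm_num
              · omega
              · nlinarith
              · nlinarith
          _ ≤ Real.exp (ε / 2 * n) * Real.exp (ε / 2 * n) := by
              rw [e1]
              gcongr
          _ = _ := e2
      · rw [Real.exp_neg, inv_le_iff_one_le_mul₀ (Real.exp_pos _)]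
        refine (k2 a ha).trans ?_
        rw [mul_comm]
        apply mul_le_mul_of_nonneg_left _ (norm_nonneg _)
        calc (8 : ℝ) ^ (d + 2) * (n * Real.exp (ε / 4 * n)) ^ 2 =
            8 ^ (d + 2) * (n : ℝ) ^ 2 * Real.exp (ε / 4 * n) ^ 2 := by ring
          _ ≤ Real.exp (ε / 2 * n) * Real.exp (ε / 2 * n) := by
              rw [e1]
              gcongr
          _ = _ := e2
    · obtain ⟨K, hK, h1⟩ := key1
      exact Pool.Agent.U256.RR.count_aux hd hK
        (T := fun r n => ((centres d n (c : ℂ) r).ncard : ℝ)) (B := fun n Φ => DerivBound d c n Φ)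
        (fun a ha => derivBound_of_tower hd hT ha)
        (fun n m Φ hnm hB => ⟨hB.1, fun i k hk => hB.2 i k (lt_of_lt_of_le hk hnm)⟩)
        (fun n hn Φ hΦ N hN Ψ hΨ r hr hrs =>
          ((h1 c hT.mem hno n hn Φ hΦ).2.2 N hN Ψ hΨ r hr hrs).2) hκ hε

end Pool.Agent.Results.MP_af9036_an.CentreRepulsion
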