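import Mathlib
import Pool.Prelude.Def_F_c31e40fa
import Pool.Agent.U608.ML.L10

/-!
# Density of hyperbolicity and the Laurent coefficients of the Multibrot sets

Let `d ≥ 2`, `f_c (z) = z^d + c`, let `H_d` be the set of the parameters `c` such that `f_c` has an
attracting cycle, `M_d` the Multibrot set, `ψ z = z + ∑ b_m z ^ (-m)` the conformal map from the
exterior of the unit disc onto the complement of `M_d`, and

`S_n = ∑_{l ≠ d^n} l² |b_l|² / (d^n - l)`.

The Cesàro means of `S_n` decide whether almost every parameter of `M_d` is hyperbolic, that is,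
whether `H_d` is dense in `M_d` and the boundary of `M_d` has area zero: let
`h = (1/π) ∫_{H_d} (mean of |z|² over the attracting cycle of f_c) dA(c)`, then all limit points of
the Cesàro means lie between `h + area (M_d \ H_d) / (32 π)` and `h + 4 area (M_d \ H_d) / π`.
-/

set_option autoImplicit false

open Filter Topology MeasureTheory Polynomial N62a1eb23

namespace Pool.Agent.Results.MP_af9036_an.CoefficientCriterion

open Pool.Agent.H713R2

/-- The unicritical polynomial `z ^ d + c`. -/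
def f (d : ℕ) (c : ℂ) : ℂ → ℂ := fun z => z ^ d + c

/-- The parameters for which `z ^ d + c` has an attracting cycle. -/
def hyperbolic (d : ℕ) : Set ℂ := {c | ∃ (m : ℕ) (z : ℂ), IsAttractingCycle (f d c) m z}

/-- The mean of `‖z‖ ^ 2` over the attracting cycle of `z ^ d + c` (zero if there is none). -/
noncomputable def cycleMean (d : ℕ) (c : ℂ) : ℝ :=
  open Classical in
  if h : ∃ (m : ℕ) (z : ℂ), IsAttractingCycle (f d c) m z then
    (h.choose : ℝ)⁻¹ * ∑ k ∈ Finset.range h.choose, ‖(f d c)^[k] h.choose_spec.choose‖ ^ 2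
  else 0

/-- The Cesàro means of the discrete Hilbert transforms `∑ l, l ^ 2 * ‖γ l‖ ^ 2 / (d ^ n - l)`. (The
term `l = d ^ n` has denominator zero and is zero by Lean's convention `x / 0 = 0`.) -/
noncomputable def cesaro (d : ℕ) (γ : ℕ → ℂ) (N : ℕ) : ℝ :=
  (N : ℝ)⁻¹ * ∑ n ∈ Finset.range N, ∑' l : ℕ, (l : ℝ) ^ 2 * ‖γ l‖ ^ 2 / ((d : ℝ) ^ n - l)

theorem hyp_eq (d : ℕ) : hyperbolic d = Pool.Agent.U608.ML.Hyp d := rfl

theorem cycleMean_eq (d : ℕ) : cycleMean d = Pool.Agent.U608.ML.kapc d := rfl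

/-- **Coefficient criterion for the density of hyperbolicity.** -/
theorem result (d : ℕ) (hd : 2 ≤ d) :
    (∃ (ψ : ℂ → ℂ) (b : ℕ → ℂ), IsExteriorMap (multibrotSet d) ψ ∧ HasLaurent ψ b) ∧
    (∀ (c z : ℂ) (m : ℕ), IsAttractingCycle (f d c) m z →
      cycleMean d c = (m : ℝ)⁻¹ * ∑ k ∈ Finset.range m, ‖(f d c)^[k] z‖ ^ 2) ∧
    (volume (multibrotSet d \ hyperbolic d) = 0 ↔
      volume (frontier (multibrotSet d)) = 0 ∧ multibrotSet d ⊆ closure (hyperbolic d)) ∧
    ∀ ψ : ℂ → ℂ, IsExteriorMap (multibrotSet d) ψ →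
      (∀ (G H : ℂ[X]) (γ : ℕ → ℂ),
        (∀ z : ℂ, 1 < ‖z‖ → HasSum (fun m : ℕ => γ m / z ^ m) (G.eval (ψ z) - H.eval z)) →
        (∀ n : ℕ, Summable fun l : ℕ => (l : ℝ) ^ 2 * ‖γ l‖ ^ 2 / ((d : ℝ) ^ n - l)) ∧
        ∀ ε : ℝ, 0 < ε → ∀ᶠ N : ℕ in atTop,
          1 / Real.pi * (∫ c in hyperbolic d, ‖(derivative G).eval c‖ ^ 2 * cycleMean d c) +
            1 / (32 * Real.pi) *
              (∫ c in multibrotSet d \ hyperbolic d, ‖(derivative G).eval c‖ ^ 2) - ε ≤
            cesaro d γ N ∧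
          cesaro d γ N ≤
            1 / Real.pi * (∫ c in hyperbolic d, ‖(derivative G).eval c‖ ^ 2 * cycleMean d c) +
            4 / Real.pi *
              (∫ c in multibrotSet d \ hyperbolic d, ‖(derivative G).eval c‖ ^ 2) + ε) ∧
      ∀ b : ℕ → ℂ, HasLaurent ψ b →
        (Tendsto (cesaro d b) atTop (𝓝 (1 / Real.pi * ∫ c in hyperbolic d, cycleMean d c)) ↔
          volume (multibrotSet d \ hyperbolic d) = 0) := by
  obtain ⟨β, hβ⟩ := exists_beta (d := d) hd
  refine ⟨⟨_, _, exteriorMap_of_beta hβ, laurent_of_beta hβ⟩, ?_, ?_, ?_⟩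
  · intro c z m hz
    rw [cycleMean_eq]
    exact Pool.Agent.U608.ML.kapc_eq hd hz
  · exact Pool.Agent.U608.ML.null_iff hd
  · intro ψ hψ
    refine ⟨fun G H γ h => ⟨(Pool.Agent.U608.ML.law hd hψ h).1, fun ε hε => ?_⟩, fun b hb => ?_⟩
    · exact Pool.Agent.U608.ML.cesaro_law hd hψ h hε
    · exact Pool.Agent.U608.ML.criterion hd hψ hb

end Pool.Agent.Results.MP_af9036_an.CoefficientCriterion
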