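import Mathlib
import Pool.Prelude.Def_F_c31e40fa
import Pool.Agent.U785.LE.Main

set_option autoImplicit false

open Filter Topology MeasureTheory Metric

namespace Pool.Agent.Results.MP_af9036_an.LyapunovExponents

/-- The polynomial `z ^ n + c`. -/
def f (n : ℕ) (c : ℂ) : ℂ → ℂ := fun z => z ^ n + c

/-- The parameters `c` for which `z ^ n + c` has an attracting cycle. -/
def hyp (n : ℕ) : Set ℂ := {c | ∃ m z, N62a1eb23.IsAttractingCycle (f n c) m z}

/-- There is a parameter `c'` with `|c' - c| ≤ s` such that `z ^ n + c'` has an attracting cycle of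
period at most `T`. -/
def Near (n : ℕ) (T : ℝ) (c : ℂ) (s : ℝ) : Prop :=
  ∃ c' : ℂ, ‖c' - c‖ ≤ s ∧ ∃ p : ℕ, (p : ℝ) ≤ T ∧ ∃ z, N62a1eb23.IsAttractingCycle (f n c') p z

/-- The points of the Multibrot set whose distance to every parameter with an attracting cycle is
larger than `s`. -/
def Far (n : ℕ) (s : ℝ) : Set ℂ := {c | c ∈ N62a1eb23.multibrotSet n ∧ ∀ c' ∈ hyp n, s < ‖c' - c‖}

/-- The function `exp (-ε √(log (1 / r)))`, which tends to `0` as `r → 0`. -/
noncomputable def slow (ε r : ℝ) : ℝ := Real.exp (-(ε * √(Real.log (1 / r))))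

/-- The Borel probability measure `μ` on `ℂ` is invariant under `z ^ n + c`. -/
def Inv (n : ℕ) (c : ℂ) (μ : ProbabilityMeasure ℂ) : Prop :=
  Measure.map (f n c) (μ : Measure ℂ) = (μ : Measure ℂ)

/-- The Lyapunov exponent `∫ log |f'| dμ` of `z ^ n + c` with respect to `μ`. -/
noncomputable def expo (n : ℕ) (c : ℂ) (μ : ProbabilityMeasure ℂ) : ℝ :=
  ∫ z, Real.log ‖deriv (f n c) z‖ ∂(μ : Measure ℂ)

/-- `μ` is the average of the unit masses at `c, f(c), …, f ^ N (c)`. -/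
def IsEmp (n : ℕ) (c : ℂ) (N : ℕ) (μ : ProbabilityMeasure ℂ) : Prop :=
  (μ : Measure ℂ) =
    ((N + 1 : ℕ) : ENNReal)⁻¹ • ∑ k ∈ Finset.range (N + 1), Measure.dirac ((f n c)^[k] c)

/-- The closure of the orbit of `f ^ m (c)`. -/
def tail (n : ℕ) (c : ℂ) (m : ℕ) : Set ℂ := closure {z | ∃ k ≥ m, z = (f n c)^[k] c}

/-- Invariant measures and Lyapunov exponents of `z ^ n + c` for `c` in the Multibrot set.
Convergence of probability measures is weak convergence. -/
theorem result {n : ℕ} (hn : 2 ≤ n) :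
    -- (1) every invariant measure has small mass near the critical value, and returns are slow,
    -- unless a parameter with an attracting cycle is near
    (∃ ε r₀ : ℝ, 0 < ε ∧ 0 < r₀ ∧ r₀ < 1 ∧ ∀ c ∈ N62a1eb23.multibrotSet n, ∀ r, 0 < r → r ≤ r₀ →
      ((∀ μ : ProbabilityMeasure ℂ, Inv n c μ →
          (μ : Measure ℂ) (closedBall c r) ≤ ENNReal.ofReal (slow ε r)) ∧
        (∀ z : ℂ, ‖z - c‖ ≤ r → ∀ k : ℕ, 1 ≤ k → (k : ℝ) ≤ 1 / slow ε r →
          r < ‖(f n c)^[k] z - c‖)) ∨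
      Near n (1 / slow ε r + 2) c (slow ε r)) ∧
    -- (2) the exponent along the orbit of the critical value is zero, uniformly
    (∀ s η : ℝ, 0 < s → 0 < η → ∃ N₀ : ℕ, ∀ c ∈ Far n s, ∀ N ≥ N₀,
      |Real.log ‖deriv (f n c)^[N] c‖| ≤ η * N) ∧
    -- parameters that are not limits of parameters with attracting cycles
    ∀ c ∈ N62a1eb23.multibrotSet n, c ∉ closure (hyp n) →
      -- (3) exponents are finite and not negative
      (∀ μ : ProbabilityMeasure ℂ, Inv n c μ →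
        Integrable (fun z => Real.log ‖deriv (f n c) z‖) (μ : Measure ℂ) ∧
        (μ : Measure ℂ) {0} = 0 ∧ 0 ≤ expo n c μ) ∧
      -- (4) joint continuity of the exponent
      (∀ (ι : Type) (L : Filter ι) [NeBot L] (a : ι → ℂ) (μ : ι → ProbabilityMeasure ℂ)
        (ν : ProbabilityMeasure ℂ), (∀ i, a i ∈ N62a1eb23.multibrotSet n ∧ Inv n (a i) (μ i)) →
        Tendsto a L (𝓝 c) → Tendsto μ L (𝓝 ν) →
        Inv n c ν ∧ Tendsto (fun i => expo n (a i) (μ i)) L (𝓝 (expo n c ν))) ∧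
      -- (5) limits of the empirical measures of the orbit of the critical value
      (∀ (L : Filter ℕ) [NeBot L] (μ : ℕ → ProbabilityMeasure ℂ) (ν : ProbabilityMeasure ℂ),
        L ≤ atTop → (∀ N, IsEmp n c N (μ N)) → Tendsto μ L (𝓝 ν) →
        Inv n c ν ∧ expo n c ν = 0 ∧ ∀ m, (ν : Measure ℂ) (tail n c m) = 1) ∧
      -- (6) an invariant measure with exponent zero
      (∃ ν : ProbabilityMeasure ℂ, Inv n c ν ∧ expo n c ν = 0 ∧
        ∀ m, (ν : Measure ℂ) (tail n c m) = 1) := by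
  refine ⟨?_, fun s η hs hη => U785.LE.unif_zero hn hs hη, fun c hc hcl => ⟨?_, ?_, ?_, ?_⟩⟩
  · obtain ⟨ε, r₀, hε, hr₀, hr₁, h⟩ := U785.LE.returns hn
    refine ⟨ε, r₀, hε, hr₀, hr₁, fun c hc r hr hr' => ?_⟩
    rcases h c hc r hr hr' with h1 | h1
    · refine Or.inl ⟨fun μ hμ => ?_, h1⟩
      have h2 := U785.LE.Slow.meas (one_div_pos.mpr (U785.LE.slow_pos ε r)) h1 (μ := μ) hμ
      rw [one_div_one_div] at h2
      exact h2
    · exact Or.inr h1
  · intro μ hμ
    obtain ⟨ε, hε, hslow⟩ := U785.LE.far_slow hn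
    obtain ⟨s, hs, hfar⟩ := U785.LE.exists_far hcl
    obtain ⟨ρ, hρ, hρ1, hslow⟩ := hslow s hs
    have hcF : c ∈ U785.LE.Far n s := hfar c (by simpa using hs) hc
    have hth := U785.LE.Inv.thin hn (U785.LE.Far.norm_le hn hcF) hρ1 (hslow c hcF) (μ := μ) hμ
    exact ⟨(hth.expo_eq (c := c) hn hε hρ).1, hth.zero hε hρ,
      U785.LE.Inv.expo_nonneg hn (U785.LE.Far.norm_le hn hcF) hε hρ hμ hth
        (U785.LE.Far.notMem_hyp hs hcF)⟩
  · intro ι L hL a μ ν h ha hlim
    exact U785.LE.joint hn hc hcl h ha hlim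
  · intro L hL μ ν hle hemp hlim
    have e : μ = U785.LE.emp n c := by
      funext N
      apply Subtype.ext
      exact hemp N
    rw [e] at hlim
    exact U785.LE.emp_zero hn hc hcl hle hlim
  · obtain ⟨L, ν, hL, hle, hlim⟩ := U785.LE.exists_limit (n := n) (c := c)
      (Pool.Agent.W746.LD.mem_multibrot_orb hn hc)
    exact ⟨ν, U785.LE.emp_zero hn hc hcl hle hlim⟩

end Pool.Agent.Results.MP_af9036_an.LyapunovExponents
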