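import Mathlib
import Pool.Prelude.Def_F_c31e40fa
import Pool.Agent.T2H09.LW.Cor2

/-!
# Superpolynomial growth of one derivative at the critical value gives nearby attracting cycles

Let `f_c (z) = z ^ n + c` with `c` in the Multibrot set `M_n`.  If for ONE time `N ≥ 2` the derivative
of the iterate `f_c ^ N` at the critical value `c` is larger than `exp (C log² N)`, then there is a
parameter `c'` with an attracting cycle of period at most `N + 2` at distance at most
`|(f_c ^ N)' (c)| ^ (- ε / log N)` from `c`.  Here `C, ε > 0` depend only on `n`.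

Consequently every parameter of `M_n` for which the derivatives at the critical value exceed
`exp (C log² N)` for infinitely many `N` is in the closure of the set of the parameters with an
attracting cycle.  The Collet-Eckmann condition asks for exponential growth for all `N`, and a
positive upper Lyapunov exponent for exponential growth for infinitely many `N`.
-/

set_option autoImplicit false

open Filter Metric

namespace Pool.Agent.Results.MP_af9036_an.SuperpolynomialGrowth

/-- The polynomial `z ^ n + c`. -/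
def f (n : ℕ) (c : ℂ) : ℂ → ℂ := fun z => z ^ n + c

/-- The parameters `c` for which `z ^ n + c` has an attracting cycle. -/
def hyp (n : ℕ) : Set ℂ := {c | ∃ m z, N62a1eb23.IsAttractingCycle (f n c) m z}

/-- There is a parameter `c'` with `|c' - c| ≤ s` such that `z ^ n + c'` has an attracting cycle of
period at most `N`. -/
def Near (n N : ℕ) (c : ℂ) (s : ℝ) : Prop :=
  ∃ c' : ℂ, ‖c' - c‖ ≤ s ∧ ∃ p ≤ N, ∃ z, N62a1eb23.IsAttractingCycle (f n c') p z

/-- A large derivative of an iterate at the critical value gives a nearby parameter with an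
attracting cycle. -/
theorem result (n : ℕ) (hn : 2 ≤ n) : ∃ C ε : ℝ, 0 < C ∧ 0 < ε ∧
    -- (1) one large derivative
    (∀ c ∈ N62a1eb23.multibrotSet n, ∀ N : ℕ, 2 ≤ N →
      Real.exp (C * Real.log N ^ 2) ≤ ‖deriv (f n c)^[N] c‖ →
      Near n (N + 2) c ((‖deriv (f n c)^[N] c‖⁻¹) ^ (ε / Real.log N))) ∧
    -- (2) infinitely many large derivatives
    (∀ c ∈ N62a1eb23.multibrotSet n,
      (∃ᶠ N : ℕ in atTop, Real.exp (C * Real.log N ^ 2) ≤ ‖deriv (f n c)^[N] c‖) →
      c ∈ closure (hyp n)) := by
  obtain ⟨C, ε, hC, hε, h⟩ := Pool.Agent.T2H09.LW.growV2 hn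
  have hP : ∀ c k, deriv (f n c)^[k] c = Pool.Agent.W746.LD.P n c c k := fun c k =>
    (Pool.Agent.W746.LD.hasDerivAt_orb c k).deriv
  have h1 : ∀ c ∈ N62a1eb23.multibrotSet n, ∀ N : ℕ, 2 ≤ N →
      Real.exp (C * Real.log N ^ 2) ≤ ‖deriv (f n c)^[N] c‖ →
      Near n (N + 2) c ((‖deriv (f n c)^[N] c‖⁻¹) ^ (ε / Real.log N)) := by
    intro c hc N hN hyp
    rw [hP] at hyp ⊢
    exact h c hc N hN hyp
  refine ⟨C, ε, hC, hε, h1, ?_⟩
  intro c hc hf
  apply Pool.Agent.T2H09.LW.closure_of_near2 (ε := ε * C) (by positivity)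
  refine (hf.and_eventually (eventually_ge_atTop 2)).mono ?_
  rintro N ⟨h3, hN⟩
  have hpos : 0 < ‖deriv (f n c)^[N] c‖ := (Real.exp_pos _).trans_le h3
  have h4 : ‖deriv (f n c)^[N] c‖⁻¹ ≤ Real.exp (-(C * Real.log N ^ 2)) := by
    rw [Real.exp_neg]
    exact inv_anti₀ (Real.exp_pos _) h3
  exact Pool.Agent.T2H09.LV.Near.mono (h1 c hc N hN h3) le_rfl
    (Pool.Agent.T2H09.LW.rpow_le_of_le2 hε hN (inv_nonneg.mpr hpos.le) h4)

end Pool.Agent.Results.MP_af9036_an.SuperpolynomialGrowth
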